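import Pool.Agent.V11178.SignedCrit

set_option autoImplicit false

open Finset

namespace Pool.Agent.Results.MP_33eb55_co.OddThree

open Pool.Agent.V11178 Pool.Agent.V11178.SignedCrit

/-- `χ±(ℤ_n,[0,s])`: the least `m` with `[0,s]± A = ℤ_n` for every `m`-element `A ⊆ ℤ_n`. -/
noncomputable def chiPM (n s : ℕ) : ℕ :=
  sInf {m : ℕ | ∀ A : Finset (ZMod n), A.card = m → signedUpTo A s = Set.univ}

theorem vPM_value {n s : ℕ} (hodd : Odd n) (h3 : 3 ∣ n) (hs : 3 ≤ s) :
    vPM n s = ((n / 3 : ℕ) : ℤ) := by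
  have hn : 0 < n := hodd.pos
  apply le_antisymm
  · obtain ⟨d, hd, he⟩ := exists_vPM s hn
    have hd0 : 0 < d := Nat.pos_of_dvd_of_pos hd hn
    rcases Nat.lt_or_ge d 2 with h1 | h2
    · have hd1 : d = 1 := by omega
      rw [he, hd1, val_one (by omega)]
      omega
    · rw [he, val_cast h2]
      obtain ⟨e, he2⟩ := hd
      have hdodd : Odd d := by
        rw [he2] at hodd
        exact (Nat.odd_mul.mp hodd).1
      set k := (d - 2) / (2 * s) with hk
      have hk2 : 2 * s * k ≤ d - 2 := by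
        rw [hk]; exact Nat.mul_div_le _ _
      have hk3 : 6 * k ≤ 2 * s * k := Nat.mul_le_mul_right _ (by omega)
      obtain ⟨j, hj⟩ := hdodd
      have hkd : 3 * (2 * k + 1) ≤ d := by omega
      have hne : n / d = e := by rw [he2]; exact Nat.mul_div_cancel_left _ hd0
      rw [hne]
      have hfin : (2 * k + 1) * e ≤ n / 3 := by
        rw [Nat.le_div_iff_mul_le (by norm_num)]
        calc (2 * k + 1) * e * 3 = (3 * (2 * k + 1)) * e := by ring
          _ ≤ d * e := Nat.mul_le_mul_right _ hkd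
          _ = n := he2.symm
      exact_mod_cast hfin
  · have := val_le_vPM (s := s) hn h3
    rw [val_cast (by norm_num)] at this
    have e : (3 - 2) / (2 * s) = 0 := Nat.div_eq_of_lt (by omega)
    rw [e] at this
    simpa using this

/-- For every odd `n` divisible by `3` and every `s ≥ 3`,
`χ±(ℤ_n,[0,s]) = v±(n,s) + 1 = n/3 + 1`. -/
theorem result : ∀ n s : ℕ, Odd n → 3 ∣ n → 3 ≤ s →
    (chiPM n s : ℤ) = vPM n s + 1 ∧ chiPM n s = n / 3 + 1 := by
  intro n s hodd h3 hs
  have hn : 0 < n := hodd.pos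
  haveI : NeZero n := ⟨by omega⟩
  have hval := vPM_value hodd h3 hs
  have hmem : n / 3 + 1 ∈
      {m : ℕ | ∀ A : Finset (ZMod n), A.card = m → signedUpTo A s = Set.univ} := by
    intro A hA
    by_contra hne
    have := card_le_of_not_univ hn (by omega) A hne
    omega
  have hle : chiPM n s ≤ n / 3 + 1 := Nat.sInf_le hmem
  have hspec : ∀ A : Finset (ZMod n), A.card = chiPM n s → signedUpTo A s = Set.univ :=
    Nat.sInf_mem (s := {m : ℕ | ∀ A : Finset (ZMod n), A.card = m → signedUpTo A s = Set.univ})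
      ⟨_, hmem⟩
  have hge : n / 3 + 1 ≤ chiPM n s := by
    obtain ⟨A, hA1, hA2⟩ := exists_not_univ (s := s) hn (by omega) (by omega)
    by_contra hcon
    obtain ⟨A', hA', hc⟩ := Finset.exists_subset_card_eq (s := A) (n := chiPM n s) (by omega)
    apply hA2
    have h1 := hspec A' hc
    have h2 := signedUpTo_mono hA' s
    rw [h1] at h2
    exact Set.univ_subset_iff.mp h2
  refine ⟨?_, by omega⟩
  omega

end Pool.Agent.Results.MP_33eb55_co.OddThree
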